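import Mathlib
import Pool.Agent.Helper62.HT.FOURTH

/-!
Grothendieck's inequality by truncation.
-/

set_option linter.dupNamespace false

namespace Pool.Agent.Helper94.HT

open Finset

section GROaux

variable {F : Type} [NormedAddCommGroup F] [InnerProductSpace ℝ F]

/-- truncation of a vector at norm two -/
noncomputable def groTr (y : F) : F := if ‖y‖ ≤ 2 then y else (2 / ‖y‖) • y

lemma groTr_le (y : F) : ‖groTr y‖ ≤ 2 := by
  unfold groTr
  split_ifs with h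
  · exact h
  · push Not at h
    have h0 : 0 < ‖y‖ := by linarith
    rw [norm_smul, Real.norm_eq_abs, abs_of_pos (by positivity), div_mul_cancel₀ _ h0.ne']

lemma groTr_le' (y : F) : ‖groTr y‖ ≤ ‖y‖ := by
  unfold groTr
  split_ifs with h
  · exact le_rfl
  · push Not at h
    have h0 : 0 < ‖y‖ := by linarith
    rw [norm_smul, Real.norm_eq_abs, abs_of_pos (by positivity), div_mul_cancel₀ _ h0.ne']
    exact h.le

lemma groTr_sub (y : F) : ‖y - groTr y‖ ≤ ‖y‖ ^ 2 / 8 := by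
  unfold groTr
  split_ifs with h
  · rw [sub_self, norm_zero]
    positivity
  · push Not at h
    have h0 : 0 < ‖y‖ := by linarith
    have h1 : y - (2 / ‖y‖) • y = (1 - 2 / ‖y‖) • y := by rw [sub_smul, one_smul]
    have h2 : 0 ≤ 1 - 2 / ‖y‖ := by
      rw [sub_nonneg, div_le_one h0]
      exact h.le
    rw [h1, norm_smul, Real.norm_eq_abs, abs_of_nonneg h2, sub_mul, one_mul,
      div_mul_cancel₀ _ h0.ne']
    nlinarith [sq_nonneg (‖y‖ - 4)]

lemma groS_orth {W : Type} [Fintype W] [DecidableEq W] (w w' : W) :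
    ∑ ε : W → ℤˣ, (((ε w : ℤ) : ℝ) * ((ε w' : ℤ) : ℝ)) =
      if w = w' then (2 : ℝ) ^ (Fintype.card W) else 0 := by
  split_ifs with h
  · subst h
    have h1 : ∀ ε : W → ℤˣ, (((ε w : ℤ) : ℝ) * ((ε w : ℤ) : ℝ)) = 1 := by
      intro ε
      rcases Int.units_eq_one_or (ε w) with h | h <;> rw [h] <;> norm_num
    rw [Finset.sum_congr rfl fun ε _ => h1 ε]
    simp
  · have hinv : Function.Involutive (fun ε : W → ℤˣ => Function.update ε w (-ε w)) := by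
      intro ε
      simp
    have hT : ∃ T : Equiv.Perm (W → ℤˣ), ∀ ε, T ε = Function.update ε w (-ε w) :=
      ⟨hinv.toPerm _, fun _ => rfl⟩
    obtain ⟨T, hT⟩ := hT
    have h1 := Equiv.sum_comp T
      (fun ε : W → ℤˣ => (((ε w : ℤ) : ℝ) * ((ε w' : ℤ) : ℝ)))
    have h2 : ∀ ε : W → ℤˣ, (((T ε w : ℤ) : ℝ) * ((T ε w' : ℤ) : ℝ)) =
        -(((ε w : ℤ) : ℝ) * ((ε w' : ℤ) : ℝ)) := by
      intro ε
      have e1 : T ε w = -ε w := by rw [hT]; exact Function.update_self _ _ _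
      have e2 : T ε w' = ε w' := by rw [hT]; exact Function.update_of_ne (Ne.symm h) _ _
      rw [e1, e2]
      push_cast
      ring
    rw [Finset.sum_congr rfl fun ε _ => h2 ε, Finset.sum_neg_distrib] at h1
    linarith

lemma groS_lin {W : Type} [Fintype W] [DecidableEq W] (x y : W → ℝ) :
    ∑ ε : W → ℤˣ, ((∑ w, ((ε w : ℤ) : ℝ) * x w) * (∑ w, ((ε w : ℤ) : ℝ) * y w)) =
      (2 : ℝ) ^ (Fintype.card W) * ∑ w, x w * y w := by
  have h1 : ∀ ε : W → ℤˣ, (∑ w, ((ε w : ℤ) : ℝ) * x w) * (∑ w, ((ε w : ℤ) : ℝ) * y w) =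
      ∑ w, ∑ w', x w * y w' * (((ε w : ℤ) : ℝ) * ((ε w' : ℤ) : ℝ)) := by
    intro ε
    rw [Finset.sum_mul_sum]
    refine Finset.sum_congr rfl fun w _ => Finset.sum_congr rfl fun w' _ => ?_
    ring
  rw [Finset.sum_congr rfl fun ε _ => h1 ε, Finset.sum_comm, Finset.mul_sum]
  refine Finset.sum_congr rfl fun w _ => ?_
  rw [Finset.sum_comm]
  have h2 : ∀ w', ∑ ε : W → ℤˣ, x w * y w' * (((ε w : ℤ) : ℝ) * ((ε w' : ℤ) : ℝ)) =
      if w = w' then (2 : ℝ) ^ (Fintype.card W) * (x w * y w) else 0 := by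
    intro w'
    rw [← Finset.mul_sum, groS_orth]
    split_ifs with h
    · subst h
      ring
    · ring
  rw [Finset.sum_congr rfl fun w' _ => h2 w']
  simp

lemma groS_sq {W : Type} [Fintype W] [DecidableEq W] (u : W → F) :
    ∑ ε : W → ℤˣ, ‖∑ w, ((ε w : ℤ) : ℝ) • u w‖ ^ 2 =
      (2 : ℝ) ^ (Fintype.card W) * ∑ w, ‖u w‖ ^ 2 := by
  have h1 : ∀ ε : W → ℤˣ, ‖∑ w, ((ε w : ℤ) : ℝ) • u w‖ ^ 2 =
      ∑ w, ∑ w', inner ℝ (u w) (u w') * (((ε w : ℤ) : ℝ) * ((ε w' : ℤ) : ℝ)) := by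
    intro ε
    rw [← real_inner_self_eq_norm_sq, sum_inner]
    refine Finset.sum_congr rfl fun w _ => ?_
    rw [inner_sum]
    refine Finset.sum_congr rfl fun w' _ => ?_
    rw [real_inner_smul_left, real_inner_smul_right]
    ring
  rw [Finset.sum_congr rfl fun ε _ => h1 ε, Finset.sum_comm, Finset.mul_sum]
  refine Finset.sum_congr rfl fun w _ => ?_
  rw [Finset.sum_comm]
  have h2 : ∀ w', ∑ ε : W → ℤˣ, inner ℝ (u w) (u w') * (((ε w : ℤ) : ℝ) * ((ε w' : ℤ) : ℝ)) =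
      if w = w' then (2 : ℝ) ^ (Fintype.card W) * ‖u w‖ ^ 2 else 0 := by
    intro w'
    rw [← Finset.mul_sum, groS_orth]
    split_ifs with h
    · subst h
      rw [real_inner_self_eq_norm_sq]
      ring
    · ring
  rw [Finset.sum_congr rfl fun w' _ => h2 w']
  simp

/-- The property proved by iteration. -/
def GroP {I V : Type} [Fintype I] [Fintype V] (t : I → V → F) (K : ℝ) : Prop :=
  ∀ (W : Type) [Fintype W] (a : I → W → ℝ) (h : V → W → F), (∀ i, ∑ w, a i w ^ 2 ≤ 1) →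
    (∀ v, ∑ w, ‖h v w‖ ^ 2 ≤ 1) → |∑ w, ∑ i, ∑ v, a i w * inner ℝ (t i v) (h v w)| ≤ K

variable {I V : Type} [Fintype I] [Fintype V] {t : I → V → F}

lemma gro_base (t : I → V → F) : GroP t (∑ i, ∑ v, ‖t i v‖) := by
  intro W _ a h ha hh
  calc |∑ w, ∑ i, ∑ v, a i w * inner ℝ (t i v) (h v w)|
      ≤ ∑ w, ∑ i, ∑ v, ‖t i v‖ * ((a i w ^ 2 + ‖h v w‖ ^ 2) / 2) := by
        refine (Finset.abs_sum_le_sum_abs _ _).trans (Finset.sum_le_sum fun w _ => ?_)
        refine (Finset.abs_sum_le_sum_abs _ _).trans (Finset.sum_le_sum fun i _ => ?_)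
        refine (Finset.abs_sum_le_sum_abs _ _).trans (Finset.sum_le_sum fun v _ => ?_)
        rw [abs_mul]
        have h1 := abs_real_inner_le_norm (t i v) (h v w)
        have h2 : |a i w| * |inner ℝ (t i v) (h v w)| ≤ |a i w| * (‖t i v‖ * ‖h v w‖) :=
          mul_le_mul_of_nonneg_left h1 (abs_nonneg _)
        have h3 : |a i w| * ‖h v w‖ ≤ (a i w ^ 2 + ‖h v w‖ ^ 2) / 2 := by
          have := two_mul_le_add_sq (|a i w|) (‖h v w‖)
          rw [sq_abs] at this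
          linarith
        have h4 : ‖t i v‖ * (|a i w| * ‖h v w‖) ≤ ‖t i v‖ * ((a i w ^ 2 + ‖h v w‖ ^ 2) / 2) :=
          mul_le_mul_of_nonneg_left h3 (norm_nonneg _)
        calc |a i w| * |inner ℝ (t i v) (h v w)| ≤ |a i w| * (‖t i v‖ * ‖h v w‖) := h2
          _ = ‖t i v‖ * (|a i w| * ‖h v w‖) := by ring
          _ ≤ _ := h4
    _ = ∑ i, ∑ v, ‖t i v‖ * ((∑ w, a i w ^ 2 + ∑ w, ‖h v w‖ ^ 2) / 2) := by
        rw [Finset.sum_comm]
        refine Finset.sum_congr rfl fun i _ => ?_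
        rw [Finset.sum_comm]
        refine Finset.sum_congr rfl fun v _ => ?_
        rw [← Finset.mul_sum, ← Finset.sum_div, Finset.sum_add_distrib]
    _ ≤ ∑ i, ∑ v, ‖t i v‖ := by
        refine Finset.sum_le_sum fun i _ => Finset.sum_le_sum fun v _ => ?_
        have h1 := ha i
        have h2 := hh v
        have h3 : (∑ w, a i w ^ 2 + ∑ w, ‖h v w‖ ^ 2) / 2 ≤ 1 := by linarith
        calc ‖t i v‖ * ((∑ w, a i w ^ 2 + ∑ w, ‖h v w‖ ^ 2) / 2) ≤ ‖t i v‖ * 1 :=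
              mul_le_mul_of_nonneg_left h3 (norm_nonneg _)
          _ = ‖t i v‖ := mul_one _

lemma gro_point {R : ℝ} (hR : ∀ ε : I → ℝ, (∀ i, |ε i| ≤ 1) → ∑ v, ‖∑ i, ε i • t i v‖ ≤ R)
    (x : I → ℝ) (hx : ∀ i, |x i| ≤ 2) (y : V → F) (hy : ∀ v, ‖y v‖ ≤ 2) :
    |∑ i, ∑ v, x i * inner ℝ (t i v) (y v)| ≤ 4 * R := by
  have h1 : ∑ i, ∑ v, x i * inner ℝ (t i v) (y v) =
      ∑ v, 2 * inner ℝ (∑ i, (x i / 2) • t i v) (y v) := by
    rw [Finset.sum_comm]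
    refine Finset.sum_congr rfl fun v _ => ?_
    rw [sum_inner, Finset.mul_sum]
    refine Finset.sum_congr rfl fun i _ => ?_
    rw [real_inner_smul_left]
    ring
  have h2 := hR (fun i => x i / 2) (fun i => by
    rw [abs_div, abs_two]
    linarith [hx i])
  rw [h1]
  calc |∑ v, 2 * inner ℝ (∑ i, (x i / 2) • t i v) (y v)|
      ≤ ∑ v, |2 * inner ℝ (∑ i, (x i / 2) • t i v) (y v)| := Finset.abs_sum_le_sum_abs _ _
    _ ≤ ∑ v, 4 * ‖∑ i, (x i / 2) • t i v‖ := by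
        refine Finset.sum_le_sum fun v _ => ?_
        rw [abs_mul, abs_two]
        have h3 := abs_real_inner_le_norm (∑ i, (x i / 2) • t i v) (y v)
        have h4 : ‖∑ i, (x i / 2) • t i v‖ * ‖y v‖ ≤ ‖∑ i, (x i / 2) • t i v‖ * 2 :=
          mul_le_mul_of_nonneg_left (hy v) (norm_nonneg _)
        linarith
    _ = 4 * ∑ v, ‖∑ i, (x i / 2) • t i v‖ := by rw [Finset.mul_sum]
    _ ≤ 4 * R := by linarith

lemma gro_step {R K : ℝ} (hR : ∀ ε : I → ℝ, (∀ i, |ε i| ≤ 1) → ∑ v, ‖∑ i, ε i • t i v‖ ≤ R)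
    (hK : GroP t K) : GroP t (4 * R + K / 2) := by
  classical
  intro W _ a h ha hh
  set N : ℝ := (2 : ℝ) ^ (Fintype.card W) with hN
  have hN0 : 0 < N := by positivity
  have hcard : ∑ _ε : W → ℤˣ, (1 : ℝ) = N := by
    simp [hN]
  set X : I → (W → ℤˣ) → ℝ := fun i ε => ∑ w, ((ε w : ℤ) : ℝ) * a i w with hX
  set Y : V → (W → ℤˣ) → F := fun v ε => ∑ w, ((ε w : ℤ) : ℝ) • h v w with hY
  -- second and fourth moments
  have hX2 : ∀ i, ∑ ε, X i ε ^ 2 ≤ N := by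
    intro i
    have h1 := groS_lin (a i) (a i)
    have h2 : ∑ ε, X i ε ^ 2 = N * ∑ w, a i w * a i w := by
      rw [← h1]
      refine Finset.sum_congr rfl fun ε _ => ?_
      rw [sq]
    rw [h2]
    have h3 : ∑ w, a i w * a i w ≤ 1 := by
      refine le_trans (le_of_eq ?_) (ha i)
      exact Finset.sum_congr rfl fun w _ => by ring
    calc N * ∑ w, a i w * a i w ≤ N * 1 := mul_le_mul_of_nonneg_left h3 hN0.le
      _ = N := mul_one _
  have hX4 : ∀ i, ∑ ε, X i ε ^ 4 ≤ 3 * N := by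
    intro i
    have h1 := fourth (a i)
    rw [div_le_iff₀ (by positivity)] at h1
    have h2 : ∑ ε, X i ε ^ 4 = ∑ ε : W → ℤˣ, ‖∑ w, ((ε w : ℤ) : ℝ) • a i w‖ ^ 4 := by
      refine Finset.sum_congr rfl fun ε _ => ?_
      simp only [hX, smul_eq_mul, Real.norm_eq_abs]
      rw [← abs_pow, abs_of_nonneg (by positivity)]
    have h3 : ∑ w, ‖a i w‖ ^ 2 ≤ 1 := by
      refine le_trans (le_of_eq ?_) (ha i)
      exact Finset.sum_congr rfl fun w _ => by rw [Real.norm_eq_abs, sq_abs]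
    have h4 : 0 ≤ ∑ w, ‖a i w‖ ^ 2 := Finset.sum_nonneg fun _ _ => sq_nonneg _
    have h5 : (∑ w, ‖a i w‖ ^ 2) ^ 2 ≤ 1 := pow_le_one₀ h4 h3
    rw [h2]
    calc ∑ ε : W → ℤˣ, ‖∑ w, ((ε w : ℤ) : ℝ) • a i w‖ ^ 4
        ≤ 3 * (∑ w, ‖a i w‖ ^ 2) ^ 2 * N := h1
      _ ≤ 3 * 1 * N := by
        refine mul_le_mul_of_nonneg_right ?_ hN0.le
        linarith
      _ = 3 * N := by ring
  have hY2 : ∀ v, ∑ ε, ‖Y v ε‖ ^ 2 ≤ N := by
    intro v
    have h1 := groS_sq (h v)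
    rw [show ∑ ε, ‖Y v ε‖ ^ 2 = N * ∑ w, ‖h v w‖ ^ 2 from h1]
    calc N * ∑ w, ‖h v w‖ ^ 2 ≤ N * 1 := mul_le_mul_of_nonneg_left (hh v) hN0.le
      _ = N := mul_one _
  have hY4 : ∀ v, ∑ ε, ‖Y v ε‖ ^ 4 ≤ 3 * N := by
    intro v
    have h1 := fourth (h v)
    rw [div_le_iff₀ (by positivity)] at h1
    have h4 : 0 ≤ ∑ w, ‖h v w‖ ^ 2 := Finset.sum_nonneg fun _ _ => sq_nonneg _
    have h5 : (∑ w, ‖h v w‖ ^ 2) ^ 2 ≤ 1 := pow_le_one₀ h4 (hh v)
    calc ∑ ε, ‖Y v ε‖ ^ 4 ≤ 3 * (∑ w, ‖h v w‖ ^ 2) ^ 2 * N := h1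
      _ ≤ 3 * 1 * N := by
        refine mul_le_mul_of_nonneg_right ?_ hN0.le
        linarith
      _ = 3 * N := by ring
  -- orthogonality
  have horth : ∑ ε, ∑ i, ∑ v, X i ε * inner ℝ (t i v) (Y v ε) =
      N * ∑ w, ∑ i, ∑ v, a i w * inner ℝ (t i v) (h v w) := by
    rw [Finset.sum_comm]
    conv_rhs => rw [Finset.sum_comm, Finset.mul_sum]
    refine Finset.sum_congr rfl fun i _ => ?_
    rw [Finset.sum_comm]
    conv_rhs => rw [Finset.sum_comm, Finset.mul_sum]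
    refine Finset.sum_congr rfl fun v _ => ?_
    rw [← groS_lin (a i) (fun w => inner ℝ (t i v) (h v w))]
    refine Finset.sum_congr rfl fun ε _ => ?_
    simp only [hX, hY]
    congr 1
    rw [inner_sum]
    refine Finset.sum_congr rfl fun w _ => ?_
    rw [real_inner_smul_right]
  -- scaling
  obtain ⟨s, hs0, hs⟩ : ∃ s : ℝ, 0 ≤ s ∧ s ^ 2 * N = 1 := by
    refine ⟨Real.sqrt N⁻¹, Real.sqrt_nonneg _, ?_⟩
    rw [Real.sq_sqrt (by positivity), inv_mul_cancel₀ hN0.ne']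
  set Xc : I → (W → ℤˣ) → ℝ := fun i ε => groTr (X i ε) with hXc
  set Yc : V → (W → ℤˣ) → F := fun v ε => groTr (Y v ε) with hYc
  have h2nd : |∑ ε, ∑ i, ∑ v, Xc i ε * inner ℝ (t i v) (Y v ε - Yc v ε)| ≤ N * (K / 4) := by
    have h1 := hK (W → ℤˣ) (fun i ε => s * Xc i ε) (fun v ε => (4 * s) • (Y v ε - Yc v ε))
      (by
        intro i
        have e1 : ∑ ε, (s * Xc i ε) ^ 2 ≤ ∑ ε, s ^ 2 * X i ε ^ 2 := by
          refine Finset.sum_le_sum fun ε _ => ?_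
          rw [mul_pow]
          refine mul_le_mul_of_nonneg_left ?_ (sq_nonneg _)
          have := groTr_le' (X i ε)
          rw [Real.norm_eq_abs, Real.norm_eq_abs] at this
          exact sq_le_sq.2 this
        refine e1.trans ?_
        rw [← Finset.mul_sum, ← hs]
        exact mul_le_mul_of_nonneg_left (hX2 i) (sq_nonneg _))
      (by
        intro v
        have e1 : ∑ ε, ‖(4 * s) • (Y v ε - Yc v ε)‖ ^ 2 ≤ ∑ ε, s ^ 2 / 4 * ‖Y v ε‖ ^ 4 := by
          refine Finset.sum_le_sum fun ε _ => ?_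
          rw [norm_smul, mul_pow, Real.norm_eq_abs, sq_abs]
          have := groTr_sub (Y v ε)
          have e2 : ‖Y v ε - Yc v ε‖ ^ 2 ≤ (‖Y v ε‖ ^ 2 / 8) ^ 2 :=
            pow_le_pow_left₀ (norm_nonneg _) this 2
          calc (4 * s) ^ 2 * ‖Y v ε - Yc v ε‖ ^ 2 ≤ (4 * s) ^ 2 * (‖Y v ε‖ ^ 2 / 8) ^ 2 :=
                mul_le_mul_of_nonneg_left e2 (sq_nonneg _)
            _ = s ^ 2 / 4 * ‖Y v ε‖ ^ 4 := by ring
        refine e1.trans ?_
        rw [← Finset.mul_sum]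
        have e3 : s ^ 2 / 4 * ∑ ε, ‖Y v ε‖ ^ 4 ≤ s ^ 2 / 4 * (3 * N) :=
          mul_le_mul_of_nonneg_left (hY4 v) (by positivity)
        have e4 : s ^ 2 / 4 * (3 * N) = 3 / 4 * (s ^ 2 * N) := by ring
        rw [e4, hs] at e3
        linarith)
    have h2 : ∑ ε, ∑ i, ∑ v, s * Xc i ε * inner ℝ (t i v) ((4 * s) • (Y v ε - Yc v ε)) =
        4 * s ^ 2 * ∑ ε, ∑ i, ∑ v, Xc i ε * inner ℝ (t i v) (Y v ε - Yc v ε) := by
      simp only [Finset.mul_sum]
      refine Finset.sum_congr rfl fun ε _ => Finset.sum_congr rfl fun i _ =>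
        Finset.sum_congr rfl fun v _ => ?_
      rw [real_inner_smul_right]
      ring
    rw [h2, abs_mul, abs_of_nonneg (by positivity)] at h1
    calc |∑ ε, ∑ i, ∑ v, Xc i ε * inner ℝ (t i v) (Y v ε - Yc v ε)|
        = N / 4 * (4 * s ^ 2 * |∑ ε, ∑ i, ∑ v, Xc i ε * inner ℝ (t i v) (Y v ε - Yc v ε)|) := by
          have e5 : N / 4 * (4 * s ^ 2) = 1 := by
            rw [← hs]
            ring
          rw [← mul_assoc, e5, one_mul]
      _ ≤ N / 4 * K := mul_le_mul_of_nonneg_left h1 (by positivity)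
      _ = N * (K / 4) := by ring
  have h3rd : |∑ ε, ∑ i, ∑ v, (X i ε - Xc i ε) * inner ℝ (t i v) (Y v ε)| ≤ N * (K / 4) := by
    have h1 := hK (W → ℤˣ) (fun i ε => (4 * s) * (X i ε - Xc i ε)) (fun v ε => s • Y v ε)
      (by
        intro i
        have e1 : ∑ ε, ((4 * s) * (X i ε - Xc i ε)) ^ 2 ≤ ∑ ε, s ^ 2 / 4 * X i ε ^ 4 := by
          refine Finset.sum_le_sum fun ε _ => ?_
          rw [mul_pow]
          have := groTr_sub (X i ε)
          have e2 : ‖X i ε - Xc i ε‖ ^ 2 ≤ (‖X i ε‖ ^ 2 / 8) ^ 2 :=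
            pow_le_pow_left₀ (norm_nonneg _) this 2
          rw [Real.norm_eq_abs, Real.norm_eq_abs, sq_abs, sq_abs] at e2
          calc (4 * s) ^ 2 * (X i ε - Xc i ε) ^ 2 ≤ (4 * s) ^ 2 * (X i ε ^ 2 / 8) ^ 2 :=
                mul_le_mul_of_nonneg_left e2 (sq_nonneg _)
            _ = s ^ 2 / 4 * X i ε ^ 4 := by ring
        refine e1.trans ?_
        rw [← Finset.mul_sum]
        have e3 : s ^ 2 / 4 * ∑ ε, X i ε ^ 4 ≤ s ^ 2 / 4 * (3 * N) :=
          mul_le_mul_of_nonneg_left (hX4 i) (by positivity)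
        have e4 : s ^ 2 / 4 * (3 * N) = 3 / 4 * (s ^ 2 * N) := by ring
        rw [e4, hs] at e3
        linarith)
      (by
        intro v
        have e1 : ∑ ε, ‖s • Y v ε‖ ^ 2 = ∑ ε, s ^ 2 * ‖Y v ε‖ ^ 2 := by
          refine Finset.sum_congr rfl fun ε _ => ?_
          rw [norm_smul, mul_pow, Real.norm_eq_abs, sq_abs]
        rw [e1, ← Finset.mul_sum, ← hs]
        exact mul_le_mul_of_nonneg_left (hY2 v) (sq_nonneg _))
    have h2 : ∑ ε, ∑ i, ∑ v, (4 * s) * (X i ε - Xc i ε) * inner ℝ (t i v) (s • Y v ε) =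
        4 * s ^ 2 * ∑ ε, ∑ i, ∑ v, (X i ε - Xc i ε) * inner ℝ (t i v) (Y v ε) := by
      simp only [Finset.mul_sum]
      refine Finset.sum_congr rfl fun ε _ => Finset.sum_congr rfl fun i _ =>
        Finset.sum_congr rfl fun v _ => ?_
      rw [real_inner_smul_right]
      ring
    rw [h2, abs_mul, abs_of_nonneg (by positivity)] at h1
    calc |∑ ε, ∑ i, ∑ v, (X i ε - Xc i ε) * inner ℝ (t i v) (Y v ε)|
        = N / 4 * (4 * s ^ 2 * |∑ ε, ∑ i, ∑ v, (X i ε - Xc i ε) * inner ℝ (t i v) (Y v ε)|) := by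
          have e5 : N / 4 * (4 * s ^ 2) = 1 := by
            rw [← hs]
            ring
          rw [← mul_assoc, e5, one_mul]
      _ ≤ N / 4 * K := mul_le_mul_of_nonneg_left h1 (by positivity)
      _ = N * (K / 4) := by ring
  have h1st : |∑ ε, ∑ i, ∑ v, Xc i ε * inner ℝ (t i v) (Yc v ε)| ≤ N * (4 * R) := by
    calc |∑ ε, ∑ i, ∑ v, Xc i ε * inner ℝ (t i v) (Yc v ε)|
        ≤ ∑ ε, |∑ i, ∑ v, Xc i ε * inner ℝ (t i v) (Yc v ε)| := Finset.abs_sum_le_sum_abs _ _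
      _ ≤ ∑ _ε : W → ℤˣ, 4 * R := by
        refine Finset.sum_le_sum fun ε _ => gro_point hR _ (fun i => ?_) _ (fun v => ?_)
        · have := groTr_le (X i ε)
          rwa [Real.norm_eq_abs] at this
        · exact groTr_le (Y v ε)
      _ = N * (4 * R) := by
        rw [← hcard, Finset.sum_mul]
        refine Finset.sum_congr rfl fun _ _ => by ring
  have hsplit : ∑ ε, ∑ i, ∑ v, X i ε * inner ℝ (t i v) (Y v ε) =
      ∑ ε, ∑ i, ∑ v, Xc i ε * inner ℝ (t i v) (Yc v ε) +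
      ∑ ε, ∑ i, ∑ v, Xc i ε * inner ℝ (t i v) (Y v ε - Yc v ε) +
      ∑ ε, ∑ i, ∑ v, (X i ε - Xc i ε) * inner ℝ (t i v) (Y v ε) := by
    simp only [← Finset.sum_add_distrib]
    refine Finset.sum_congr rfl fun ε _ => Finset.sum_congr rfl fun i _ =>
        Finset.sum_congr rfl fun v _ => ?_
    rw [inner_sub_right]
    ring
  have hfin : N * |∑ w, ∑ i, ∑ v, a i w * inner ℝ (t i v) (h v w)| ≤ N * (4 * R + K / 2) := by
    have e1 : N * |∑ w, ∑ i, ∑ v, a i w * inner ℝ (t i v) (h v w)| =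
        |∑ ε, ∑ i, ∑ v, X i ε * inner ℝ (t i v) (Y v ε)| := by
      rw [horth, abs_mul, abs_of_pos hN0]
    rw [e1, hsplit]
    refine (abs_add_le _ _).trans ?_
    have e2 := abs_add_le (∑ ε, ∑ i, ∑ v, Xc i ε * inner ℝ (t i v) (Yc v ε))
      (∑ ε, ∑ i, ∑ v, Xc i ε * inner ℝ (t i v) (Y v ε - Yc v ε))
    have e3 : N * (4 * R + K / 2) = N * (4 * R) + N * (K / 4) + N * (K / 4) := by ring
    rw [e3]
    linarith
  exact le_of_mul_le_mul_left hfin hN0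

lemma gro_iter {R : ℝ} (hR : ∀ ε : I → ℝ, (∀ i, |ε i| ≤ 1) → ∑ v, ‖∑ i, ε i • t i v‖ ≤ R)
    (j : ℕ) : GroP t (8 * R + (∑ i, ∑ v, ‖t i v‖) / 2 ^ j) := by
  induction j with
  | zero =>
    have hR0 : 0 ≤ R := by
      have := hR 0 (fun i => by simp)
      simpa using this
    intro W _ a h ha hh
    have := gro_base t W a h ha hh
    rw [pow_zero, div_one]
    linarith
  | succ j ih =>
    have h1 := gro_step hR ih
    have h2 : 4 * R + (8 * R + (∑ i, ∑ v, ‖t i v‖) / 2 ^ j) / 2 =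
        8 * R + (∑ i, ∑ v, ‖t i v‖) / 2 ^ (j + 1) := by
      rw [pow_succ]
      field_simp
      ring
    rw [h2] at h1
    exact h1

end GROaux

theorem grothendieck {E : Type} [NormedAddCommGroup E] [InnerProductSpace ℝ E] {I V : Type}
    [Fintype I] [Fintype V] (t : I → V → E) (R : ℝ)
    (hR : ∀ ε : I → ℝ, (∀ i, |ε i| ≤ 1) → ∑ v, ‖∑ i, ε i • t i v‖ ≤ R)
    {W : Type} [Fintype W] (μ : W → ℝ) (hμ : ∀ w, 0 ≤ μ w) (hμ1 : ∑ w, μ w = 1)
    (a : I → W → ℝ) (ha : ∀ i, ∑ w, μ w * a i w ^ 2 ≤ 1)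
    (h : V → W → E) (hh : ∀ v, ∑ w, μ w * ‖h v w‖ ^ 2 ≤ 1) :
    |∑ w, μ w * ∑ i, ∑ v, a i w * inner ℝ (t i v) (h v w)| ≤ 96 * R := by
  have hR0 : 0 ≤ R := by
    have := hR 0 (fun i => by simp)
    simpa using this
  set K₀ := ∑ i, ∑ v, ‖t i v‖ with hK₀
  have hK0 : 0 ≤ K₀ := Finset.sum_nonneg fun _ _ => Finset.sum_nonneg fun _ _ => norm_nonneg _
  have h1 : ∀ j : ℕ, |∑ w, μ w * ∑ i, ∑ v, a i w * inner ℝ (t i v) (h v w)| ≤
      8 * R + K₀ / 2 ^ j := by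
    intro j
    have h2 := gro_iter hR j W (fun i w => Real.sqrt (μ w) * a i w)
      (fun v w => Real.sqrt (μ w) • h v w)
      (by
        intro i
        refine le_trans (le_of_eq ?_) (ha i)
        refine Finset.sum_congr rfl fun w _ => ?_
        rw [mul_pow, Real.sq_sqrt (hμ w)])
      (by
        intro v
        refine le_trans (le_of_eq ?_) (hh v)
        refine Finset.sum_congr rfl fun w _ => ?_
        rw [norm_smul, mul_pow, Real.norm_eq_abs, sq_abs, Real.sq_sqrt (hμ w)])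
    have h3 : ∑ w, μ w * ∑ i, ∑ v, a i w * inner ℝ (t i v) (h v w) =
        ∑ w, ∑ i, ∑ v, Real.sqrt (μ w) * a i w * inner ℝ (t i v) (Real.sqrt (μ w) • h v w) := by
      simp only [Finset.mul_sum]
      refine Finset.sum_congr rfl fun w _ => Finset.sum_congr rfl fun i _ =>
        Finset.sum_congr rfl fun v _ => ?_
      rw [real_inner_smul_right]
      calc μ w * (a i w * inner ℝ (t i v) (h v w)) =
            Real.sqrt (μ w) * Real.sqrt (μ w) * (a i w * inner ℝ (t i v) (h v w)) := by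
            rw [Real.mul_self_sqrt (hμ w)]
        _ = _ := by ring
    rw [h3]
    exact h2
  have h2 : |∑ w, μ w * ∑ i, ∑ v, a i w * inner ℝ (t i v) (h v w)| ≤ 8 * R := by
    refine le_of_forall_pos_le_add fun e he => ?_
    obtain ⟨j, hj⟩ := pow_unbounded_of_one_lt (K₀ / e) (one_lt_two : (1 : ℝ) < 2)
    have h3 : K₀ / 2 ^ j ≤ e := by
      rw [div_le_iff₀ (by positivity)]
      rw [div_lt_iff₀ he] at hj
      linarith
    linarith [h1 j]
  linarith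

end Pool.Agent.Helper94.HT
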