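import Mathlib
import Pool.Agent.Helper11.Degree
import Pool.Agent.Helper37.HT.COND
import Pool.Agent.Helper97.HT.COVSUP

/-!
The part shared by the branching and the continuation.
-/

set_option linter.dupNamespace false

namespace Pool.Agent.Helper94.HT

open Finset Pool.Agent.Helper11.Cube Pool.Agent.Helper11.AA Pool.Agent.Helper24.QR

section TWOaux

variable {n : ℕ}

lemma two_cond_disj {A K : Finset (Fin n)} (hAK : Disjoint A K) (g : Cube n → ℝ) (z w : Cube n) :
    cond A g (mix K z w) = cond A g w := by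
  unfold Pool.Agent.Helper24.QR.cond
  refine ex_congr fun y => ?_
  congr 1
  funext i
  by_cases hi : i ∈ A
  · have hK : i ∉ K := fun h => Finset.disjoint_left.1 hAK hi h
    rw [mix_mem hi, mix_mem hi, mix_notMem hK]
  · rw [mix_notMem hi, mix_notMem hi]

lemma two_cond_sub {H K : Finset (Fin n)} (hHK : H ⊆ K) (q : Cube n → ℝ) (z w : Cube n) :
    cond H q (mix K z w) = cond H q z := by
  unfold Pool.Agent.Helper24.QR.cond
  refine ex_congr fun y => ?_
  congr 1
  funext i
  by_cases hi : i ∈ H
  · rw [mix_mem hi, mix_mem hi, mix_mem (hHK hi)]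
  · rw [mix_notMem hi, mix_notMem hi]

lemma two_inner {g N : Cube n → ℝ} {V : ℝ}
    (hV : ∀ (K : Finset (Fin n)) (z : Cube n), |ex (fun x => g x * N (mix K z x))| ≤ V)
    {A K : Finset (Fin n)} (hAK : Disjoint A K) (z : Cube n) :
    |ex (fun w => cond A g w * N (mix K z w))| ≤ V := by
  have h1 : ex (fun w => cond A g w * N (mix K z w)) =
      ex (fun w => cond A (fun w => N (mix K z w)) w * g w) := by
    rw [← ex_mul_cond]
    exact ex_congr fun w => mul_comm _ _
  have h2 : ∀ w, cond A (fun w => N (mix K z w)) w * g w =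
      ex (fun y => g w * N (mix (univ \ A) (mix K z y) w)) := by
    intro w
    rw [ex_const_mul, mul_comm]
    congr 1
    unfold Pool.Agent.Helper24.QR.cond
    refine ex_congr fun y => ?_
    show N (mix K z (mix A w y)) = N (mix (univ \ A) (mix K z y) w)
    congr 1
    funext i
    by_cases hA : i ∈ A
    · have hK : i ∉ K := fun h => Finset.disjoint_left.1 hAK hA h
      rw [mix_notMem hK, mix_mem hA, mix_notMem (by simp [hA])]
    · rw [mix_mem (K := univ \ A) (by simp [hA])]
      by_cases hK : i ∈ K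
      · rw [mix_mem hK, mix_mem hK]
      · rw [mix_notMem hK, mix_notMem hK, mix_notMem hA]
  rw [h1, ex_congr h2, ex_comm]
  refine (abs_ex_le _).trans ?_
  refine (ex_mono (g := fun _ => V) fun y => hV (univ \ A) (mix K z y)).trans ?_
  rw [ex_const]

lemma two_cond_abs {K : Finset (Fin n)} {f s : Cube n → ℝ} (h : ∀ x, |f x| ≤ s x) (x : Cube n) :
    |cond K f x| ≤ cond K s x := by
  unfold Pool.Agent.Helper24.QR.cond
  exact (abs_ex_le _).trans (ex_mono fun y => h _)

end TWOaux

theorem partTwo {n D : ℕ} {g N q : Cube n → ℝ} {V : ℝ} (hND : DegLE N D)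
    (hV : ∀ (K : Finset (Fin n)) (z : Cube n), |ex (fun x => g x * N (mix K z x))| ≤ V)
    (H A K : Finset (Fin n)) (hHK : H ⊆ K) (hAK : Disjoint A K) (s : Cube n → ℝ)
    (hs0 : ∀ x, 0 ≤ s x) (hs : ∀ x, ∀ v, v ∉ H → |discreteDeriv v q x| ≤ s x) :
    |ex (fun w => cond A g w * (cond K q w - cond H q w) * N w)|
      ≤ 2 * D ^ 2 * V * ex s := by
  set a : Cube n → ℝ := cond K q with ha
  set f : Cube n → ℝ := fun z => ex (fun w => cond A g w * N (mix K z w)) with hf
  have hHa : ∀ z, cond H a z = cond H q z := by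
    intro z
    rw [ha, cond_cond, Finset.inter_eq_left.2 hHK]
  have h1 : ex (fun w => cond A g w * (cond K q w - cond H q w) * N w) =
      ex (fun z => (a z - cond H a z) * f z) := by
    rw [← ex_mix K (fun w => cond A g w * (cond K q w - cond H q w) * N w)]
    refine ex_congr fun z => ?_
    rw [hHa, hf]
    simp only
    rw [← ex_const_mul]
    refine ex_congr fun w => ?_
    rw [two_cond_disj hAK, two_cond_sub subset_rfl, two_cond_sub hHK]
    ring
  have hfV : ∀ z, |f z| ≤ V := fun z => two_inner hV hAK z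
  have hfD : DegLE f D := by
    have e1 : f = fun z => ∑ w : Cube n, (1 / 2 ^ n * cond A g w) * N (mix K z w) := by
      funext z
      rw [hf]
      simp only [ex]
      rw [Finset.sum_div]
      refine Finset.sum_congr rfl fun w _ => ?_
      ring
    rw [e1]
    refine degLE_sum _ _ fun w _ => ?_
    exact degLE_const_mul _ (degLE_mix' hND K w)
  have hL : ∀ z, ∑ v, |discreteDeriv v f z| ≤ 2 * D ^ 2 * V := fun z =>
    sum_abs_deriv_le hfD hfV z
  have hsa : ∀ z, ∀ v, v ∉ H → |discreteDeriv v a z| ≤ cond K s z := by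
    intro z v hv
    by_cases hvK : v ∈ K
    · rw [ha, deriv_cond_mem hvK]
      exact two_cond_abs (fun x => hs x v hv) z
    · rw [ha, deriv_cond_notMem hvK, abs_zero]
      exact ex_nonneg fun y => hs0 _
  have h2 := covsup a f (cond K s) H (2 * D ^ 2 * V) (fun z => ex_nonneg fun y => hs0 _) hsa hL
  rw [h1]
  refine h2.trans (le_of_eq ?_)
  congr 1
  exact ex_cond (stop_const K) s

theorem partBase {n : ℕ} {g N q : Cube n → ℝ} {V : ℝ} (hq0 : ∀ x, 0 ≤ q x)
    (hV : ∀ (K : Finset (Fin n)) (z : Cube n), |ex (fun x => g x * N (mix K z x))| ≤ V)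
    (H : Finset (Fin n)) :
    |ex (fun w => cond (univ \ H) g w * cond H q w * N w)| ≤ V * ex q := by
  have hd : Disjoint (univ \ H) H := Finset.sdiff_disjoint
  have h1 : ex (fun w => cond (univ \ H) g w * cond H q w * N w) =
      ex (fun z => cond H q z * ex (fun w => cond (univ \ H) g w * N (mix H z w))) := by
    rw [← ex_mix H (fun w => cond (univ \ H) g w * cond H q w * N w)]
    refine ex_congr fun z => ?_
    rw [← ex_const_mul]
    refine ex_congr fun w => ?_
    rw [two_cond_disj hd, two_cond_sub subset_rfl]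
    ring
  rw [h1]
  refine (abs_ex_le _).trans ?_
  have h2 : ex (fun z => cond H q z * V) = V * ex q := by
    rw [ex_mul_const, mul_comm]
    congr 1
    exact ex_cond (stop_const H) q
  rw [← h2]
  refine ex_mono fun z => ?_
  have h3 : 0 ≤ cond H q z := ex_nonneg fun y => hq0 _
  rw [abs_mul, abs_of_nonneg h3]
  exact mul_le_mul_of_nonneg_left (two_inner hV hd z) h3

end Pool.Agent.Helper94.HT
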